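import Pool.Agent.H23.NVK.MTargets

/-!
# Row M_DSE of the board `nvk_modules`: the sum of the error factors
-/

set_option autoImplicit false

open scoped Real

namespace Pool.Agent.H5.NVK

open Pool.Agent.H23.NVK

/-- the elementary inequality for the local factors -/
theorem local_bound {x : ℝ} (hx : 2 ≤ x) :
    0 ≤ (1 + 30 / Real.sqrt x) ^ 8 - 1 ∧
      ((1 + 30 / Real.sqrt x) ^ 8 - 1) / x ≤ 8 * 31 ^ 7 * 30 * x ^ (-(3 / 2) : ℝ) := by
  have hp0 : (0 : ℝ) < x := by linarith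
  have hs : 1 ≤ Real.sqrt x := by
    rw [← Real.sqrt_one]; exact Real.sqrt_le_sqrt (by linarith)
  have hs0 : 0 < Real.sqrt x := by linarith
  obtain ⟨t, ht⟩ : ∃ t : ℝ, t = 30 / Real.sqrt x := ⟨_, rfl⟩
  have hx0 : 0 < t := by rw [ht]; positivity
  have hx1 : t ≤ 30 := by
    rw [ht, div_le_iff₀ hs0]; nlinarith
  rw [← ht]
  have h1 : (1 : ℝ) ≤ (1 + t) ^ 8 := one_le_pow₀ (by linarith)
  have h2 : (1 + t) ^ 8 - 1 ≤ 8 * 31 ^ 7 * t := by
    have e : (1 + t) ^ 8 - 1 = t * ((1 + t) ^ 7 + (1 + t) ^ 6 + (1 + t) ^ 5 + (1 + t) ^ 4 +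
      (1 + t) ^ 3 + (1 + t) ^ 2 + (1 + t) + 1) := by ring
    have hb : ∀ j : ℕ, j ≤ 7 → (1 + t) ^ j ≤ 31 ^ 7 := fun j hj =>
      (pow_le_pow_left₀ (by linarith) (by linarith : 1 + t ≤ 31) j).trans
        (pow_le_pow_right₀ (by norm_num) hj)
    rw [e]
    have b0 := hb 0 (by norm_num)
    have b1 := hb 1 (by norm_num)
    have b2 := hb 2 (by norm_num)
    have b3 := hb 3 (by norm_num)
    have b4 := hb 4 (by norm_num)
    have b5 := hb 5 (by norm_num)
    have b6 := hb 6 (by norm_num)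
    have b7 := hb 7 (by norm_num)
    rw [pow_zero] at b0
    rw [pow_one] at b1
    have : (1 + t) ^ 7 + (1 + t) ^ 6 + (1 + t) ^ 5 + (1 + t) ^ 4 +
      (1 + t) ^ 3 + (1 + t) ^ 2 + (1 + t) + 1 ≤ 8 * 31 ^ 7 := by linarith
    calc _ ≤ t * (8 * 31 ^ 7) := mul_le_mul_of_nonneg_left this hx0.le
      _ = _ := by ring
  refine ⟨by linarith, ?_⟩
  have e1 : x ^ (-(3 / 2) : ℝ) = 1 / Real.sqrt x / x := by
    rw [Real.sqrt_eq_rpow, show (-(3 / 2) : ℝ) = -(1 / 2) - 1 by norm_num,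
      Real.rpow_sub_one hp0.ne', Real.rpow_neg hp0.le]
    congr 1
    exact (one_div _).symm
  rw [e1, ← mul_div_assoc]
  refine div_le_div_of_nonneg_right ?_ hp0.le
  refine h2.trans ?_
  rw [ht]
  apply le_of_eq
  ring

/-- (DSE) the sum of the error factors. -/
theorem pf_DSE (hM : T_MRT) (hS : T_SUM) : T_DSE := by
  classical
  intro α N ρ δ hA
  obtain ⟨C₁, hC₁, hm⟩ := hM α N ρ δ hA
  obtain ⟨-, hs, -, -⟩ := hS α N ρ δ hA
  obtain ⟨A, hAdef⟩ : ∃ A : ℝ, A = 8 * 31 ^ 7 * 30 := ⟨_, rfl⟩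
  have hA0 : 0 ≤ A := by rw [hAdef]; norm_num
  have hsum : Summable fun p : α => A * (N p : ℝ) ^ (-(3 / 2) : ℝ) := by
    refine Summable.mul_left A ?_
    refine (hs (3 / 2) 0 (by norm_num)).congr fun p => ?_
    rw [pow_zero, one_mul]
  obtain ⟨T, hT⟩ : ∃ T : ℝ, T = ∑' p : α, A * (N p : ℝ) ^ (-(3 / 2) : ℝ) := ⟨_, rfl⟩
  have hlog2 := Real.log_pos (by norm_num : (1 : ℝ) < 2)
  refine ⟨Real.exp T * C₁ * (1 / Real.log 2 + 1), by positivity, fun M hM2 => ?_⟩
  have hlogM : Real.log 2 ≤ Real.log M := Real.log_le_log (by norm_num) hM2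
  obtain ⟨k, hk⟩ : ∃ k : α → ℝ, k = fun p => ((1 + 30 / Real.sqrt (N p)) ^ 8 - 1 : ℝ) :=
    ⟨_, rfl⟩
  have hN : ∀ p : α, (2 : ℝ) ≤ N p := fun p => by exact_mod_cast hA.two p
  have hk0 : ∀ p, 0 ≤ k p ∧ k p / N p ≤ A * (N p : ℝ) ^ (-(3 / 2) : ℝ) := fun p => by
    rw [hk, hAdef]
    exact local_bound (hN p)
  -- the sum is at most the product
  have h1 : ∑ d ∈ SM N M, Ef N d ^ 8 / nS N d ≤ ∏ p ∈ PM N M, (1 + (1 + k p) / N p) := by
    rw [Finset.prod_one_add]
    have hsub : SM N M ⊆ (PM N M).powerset := by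
      intro S hS
      rw [hA.mem_SM] at hS
      rw [Finset.mem_powerset]
      intro p hp
      rw [hA.mem_PM]
      refine le_trans ?_ hS
      have : N p ≤ nS N S := Nat.le_of_dvd (hA.one_le_nS S) (Finset.dvd_prod_of_mem N hp)
      exact_mod_cast this
    refine (Finset.sum_le_sum_of_subset_of_nonneg hsub fun S _ _ => ?_).trans (le_of_eq ?_)
    · refine div_nonneg (pow_nonneg (Finset.prod_nonneg fun p _ => ?_) 8) (Nat.cast_nonneg _)
      positivity
    · refine Finset.sum_congr rfl fun S _ => ?_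
      rw [Finset.prod_div_distrib]
      unfold Ef nS
      rw [Nat.cast_prod, ← Finset.prod_pow]
      congr 1
      refine Finset.prod_congr rfl fun p _ => ?_
      rw [hk]
      ring
  have h2 : ∏ p ∈ PM N M, (1 + (1 + k p) / N p) ≤
      (∏ p ∈ PM N M, (1 + 1 / (N p : ℝ))) * ∏ p ∈ PM N M, (1 + k p / N p) := by
    rw [← Finset.prod_mul_distrib]
    refine Finset.prod_le_prod (fun p _ => ?_) fun p _ => ?_
    · have := (hk0 p).1
      positivity
    · have h3 := (hk0 p).1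
      have h4 : (0 : ℝ) < N p := by linarith [hN p]
      have e : (1 + 1 / (N p : ℝ)) * (1 + k p / N p) =
          1 + (1 + k p) / N p + 1 / (N p : ℝ) * (k p / N p) := by
        field_simp
        ring
      rw [e]
      have : 0 ≤ 1 / (N p : ℝ) * (k p / N p) := by positivity
      linarith
  have h3 : ∏ p ∈ PM N M, (1 + k p / N p) ≤ Real.exp T := by
    calc ∏ p ∈ PM N M, (1 + k p / N p) ≤ ∏ p ∈ PM N M, Real.exp (k p / N p) :=
          Finset.prod_le_prod (fun p _ => by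
            have := (hk0 p).1
            positivity)
            fun p _ => by rw [add_comm]; exact Real.add_one_le_exp _
      _ = Real.exp (∑ p ∈ PM N M, k p / N p) := (Real.exp_sum _ _).symm
      _ ≤ Real.exp T := by
          refine Real.exp_le_exp.2 ((Finset.sum_le_sum fun p _ => (hk0 p).2).trans ?_)
          rw [hT]
          exact hsum.sum_le_tsum _ fun p _ => by positivity
  have h4 : ∏ p ∈ PM N M, (1 + 1 / (N p : ℝ)) ≤ C₁ * (1 + Real.log M) := (hm M (by linarith)).2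
  have hlogM0 : 0 < Real.log M := by linarith
  have h5 : 0 ≤ ∏ p ∈ PM N M, (1 + k p / N p) := Finset.prod_nonneg fun p _ => by
    have := (hk0 p).1
    positivity
  calc ∑ d ∈ SM N M, Ef N d ^ 8 / nS N d
      ≤ (∏ p ∈ PM N M, (1 + 1 / (N p : ℝ))) * ∏ p ∈ PM N M, (1 + k p / N p) := h1.trans h2
    _ ≤ C₁ * (1 + Real.log M) * Real.exp T := by
        refine mul_le_mul h4 h3 h5 ?_
        positivity
    _ ≤ C₁ * ((1 / Real.log 2 + 1) * Real.log M) * Real.exp T := by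
        refine mul_le_mul_of_nonneg_right (mul_le_mul_of_nonneg_left ?_ hC₁.le)
          (Real.exp_pos T).le
        have : 1 ≤ 1 / Real.log 2 * Real.log M := by
          rw [one_div, inv_mul_eq_div, le_div_iff₀ hlog2]
          linarith
        linarith
    _ = Real.exp T * C₁ * (1 / Real.log 2 + 1) * Real.log M := by ring

end Pool.Agent.H5.NVK
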